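import Pool.Agent.Helper91.LR.Deg
import Pool.Agent.Helper21.LR.Stmts

/-!
MP_6358c9_nt (Laurent-Roy), module LR-LEMG: Hilbert function bound and geometric growth.
-/

open MvPolynomial Pool.Agent.Helper21.LR

namespace Pool.Agent.Helper91.LR

theorem coeff_filt {r : ℕ} {y : Fin r → ℂ} (k : Fin r) (hy0 : y k ≠ 0) (c : MvPolynomial (Fin r) ℚ)
    (n : ℕ) (hc : c.totalDegree ≤ n) : aeval y c ∈ Algebra.adjoin (Ek y k) {y k} ∧
      (y k)⁻¹ ^ n * aeval y c ∈ Algebra.adjoin (Ek y k) {(y k)⁻¹} := by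
  have hmem : ∀ (A : Subalgebra (Ek y k) ℂ) (z : ℂ), z ∈ Ek y k → z ∈ A := fun A z hz =>
    A.algebraMap_mem ⟨z, hz⟩
  have hy1 : (y k)⁻¹ ∈ Algebra.adjoin (Ek y k) {(y k)⁻¹} := Algebra.self_mem_adjoin_singleton _ _
  refine filt (fun n z => z ∈ Algebra.adjoin (Ek y k) {y k} ∧
    (y k)⁻¹ ^ n * z ∈ Algebra.adjoin (Ek y k) {(y k)⁻¹}) ?_ ?_ ?_ ?_ ?_ y ?_ c n hc
  · intro n; exact ⟨zero_mem _, by rw [mul_zero]; exact zero_mem _⟩
  · rintro n a b ⟨h1, h2⟩ ⟨h3, h4⟩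
    exact ⟨add_mem h1 h3, by rw [mul_add]; exact add_mem h2 h4⟩
  · rintro n m a b ⟨h1, h2⟩ ⟨h3, h4⟩
    refine ⟨mul_mem h1 h3, ?_⟩
    have : (y k)⁻¹ ^ (n + m) * (a * b) = ((y k)⁻¹ ^ n * a) * ((y k)⁻¹ ^ m * b) := by
      rw [pow_add]; ring
    rw [this]; exact mul_mem h2 h4
  · rintro n m a hnm ⟨h1, h2⟩
    refine ⟨h1, ?_⟩
    have : (y k)⁻¹ ^ m * a = (y k)⁻¹ ^ (m - n) * ((y k)⁻¹ ^ n * a) := by
      rw [← mul_assoc, ← pow_add, Nat.sub_add_cancel hnm]
    rw [this]; exact mul_mem (pow_mem hy1 _) h2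
  · intro q
    have hq : algebraMap ℚ ℂ q ∈ Ek y k := by
      rw [eq_ratCast]; exact SubfieldClass.ratCast_mem _ _
    exact ⟨hmem _ _ hq, by rw [pow_zero, one_mul]; exact hmem _ _ hq⟩
  · intro j
    rw [pow_one]
    by_cases hj : j = k
    · subst hj
      refine ⟨Algebra.self_mem_adjoin_singleton _ _, ?_⟩
      rw [inv_mul_cancel₀ hy0]; exact one_mem _
    · have hjE : y j ∈ Ek y k := by
        have : y j ∈ IntermediateField.adjoin ℚ (y '' {j | j ≠ k}) :=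
          IntermediateField.subset_adjoin _ _ ⟨j, hj, rfl⟩
        exact this
      exact ⟨hmem _ _ hjE, mul_mem hy1 (hmem _ _ hjE)⟩

theorem isIntegral_of_coeff {K L : Type*} [Field K] [Field L] [Algebra K L] (A : Subalgebra K L)
    {δ : ℕ} (c : Fin δ → L) (hc : ∀ i, c i ∈ A) (x : L)
    (h : x ^ δ + ∑ i : Fin δ, c i * x ^ (δ - 1 - (i : ℕ)) = 0) : IsIntegral A x := by
  obtain ⟨p, hp, _, hp2⟩ := exists_monic (R := A) (A := L) (fun i => ⟨c i, hc i⟩) x (by
    have e : ∀ i, algebraMap A L ⟨c i, hc i⟩ = c i := fun i => rfl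
    rw [← h]
    congr 1)
  exact ⟨p, hp, hp2⟩

theorem bdd_of_eq {r : ℕ} {y : Fin r → ℂ} (hy : AlgebraicIndependent ℚ y) {δ : ℕ} (x : ℂ)
    (c : Fin δ → MvPolynomial (Fin r) ℚ) (hc : ∀ i, (c i).totalDegree ≤ (i : ℕ) + 1)
    (h : x ^ δ + ∑ i : Fin δ, aeval y (c i) * x ^ (δ - 1 - (i : ℕ)) = 0) : Bdd y 1 x := by
  intro k
  have hy0 : y k ≠ 0 := hy.ne_zero k
  have hf := fun i => coeff_filt k hy0 (c i) _ (hc i)
  refine ⟨isIntegral_of_coeff _ (fun i => aeval y (c i)) (fun i => (hf i).1) x h,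
    isIntegral_of_coeff _ (fun i => (y k)⁻¹ ^ ((i : ℕ) + 1) * aeval y (c i)) (fun i => (hf i).2)
      _ ?_⟩
  have e : ((y k)⁻¹ ^ 1 * x) ^ δ + ∑ i : Fin δ, ((y k)⁻¹ ^ ((i : ℕ) + 1) * aeval y (c i)) *
      ((y k)⁻¹ ^ 1 * x) ^ (δ - 1 - (i : ℕ)) = (y k)⁻¹ ^ δ *
      (x ^ δ + ∑ i : Fin δ, aeval y (c i) * x ^ (δ - 1 - (i : ℕ))) := by
    rw [mul_add, Finset.mul_sum, pow_one, mul_pow]
    congr 1
    refine Finset.sum_congr rfl fun i _ => ?_
    have h1 : (y k)⁻¹ ^ δ = (y k)⁻¹ ^ ((i : ℕ) + 1) * (y k)⁻¹ ^ (δ - 1 - (i : ℕ)) := by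
      rw [← pow_add]; congr 1; have := i.2; omega
    rw [h1, mul_pow]
    ring
  rw [e, h, mul_zero]

theorem bdd_filt {r m : ℕ} {y : Fin r → ℂ} {ξ : Fin m → ℂ} (hξ : ∀ j, Bdd y 1 (ξ j))
    (Q : MvPolynomial (Fin m) ℤ) (n : ℕ) (hQ : Q.totalDegree ≤ n) : Bdd y n (aeval ξ Q) := by
  have halg : ∀ (k : Fin r) (A : Subalgebra (Ek y k) ℂ) (z : ℂ), z ∈ A → IsIntegral A z :=
    fun k A z hz => isIntegral_algebraMap (R := A) (A := ℂ) (x := ⟨z, hz⟩)
  refine filt (Bdd y) ?_ ?_ ?_ ?_ ?_ ξ hξ Q n hQ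
  · intro n k; exact ⟨isIntegral_zero, by rw [mul_zero]; exact isIntegral_zero⟩
  · intro n a b ha hb k
    exact ⟨(ha k).1.add (hb k).1, by rw [mul_add]; exact (ha k).2.add (hb k).2⟩
  · intro n m a b ha hb k
    refine ⟨(ha k).1.mul (hb k).1, ?_⟩
    have : (y k)⁻¹ ^ (n + m) * (a * b) = ((y k)⁻¹ ^ n * a) * ((y k)⁻¹ ^ m * b) := by
      rw [pow_add]; ring
    rw [this]; exact (ha k).2.mul (hb k).2
  · intro n m a hnm ha k
    refine ⟨(ha k).1, ?_⟩
    have : (y k)⁻¹ ^ m * a = (y k)⁻¹ ^ (m - n) * ((y k)⁻¹ ^ n * a) := by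
      rw [← mul_assoc, ← pow_add, Nat.sub_add_cancel hnm]
    rw [this]
    exact (halg k _ _ (pow_mem (Algebra.self_mem_adjoin_singleton _ _) _)).mul (ha k).2
  · intro c k
    have h1 : ∀ A : Subalgebra (Ek y k) ℂ, IsIntegral A (algebraMap ℤ ℂ c) := fun A =>
      halg k A _ (by rw [eq_intCast]; exact intCast_mem _ _)
    exact ⟨h1 _, by rw [pow_zero, one_mul]; exact h1 _⟩

theorem bdd_polySpan {r m : ℕ} {y : Fin r → ℂ} {ξ : Fin m → ℂ} (hξ : ∀ j, Bdd y 1 (ξ j))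
    (n : ℕ) (z : ℂ) (hz : z ∈ polySpan ξ n) : Bdd y n z := by
  refine Submodule.span_induction ?_ ?_ ?_ ?_ hz
  · rintro z ⟨Q, hQ, rfl⟩
    exact bdd_filt hξ Q n hQ
  · intro k; exact ⟨isIntegral_zero, by rw [mul_zero]; exact isIntegral_zero⟩
  · intro a b _ _ ha hb k
    exact ⟨(ha k).1.add (hb k).1, by rw [mul_add]; exact (ha k).2.add (hb k).2⟩
  · intro q a _ ha k
    have h1 : ∀ A : Subalgebra (Ek y k) ℂ, IsIntegral A (algebraMap ℚ ℂ q) := fun A => by
      have hq : algebraMap ℚ ℂ q ∈ Ek y k := by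
        rw [eq_ratCast]; exact SubfieldClass.ratCast_mem _ _
      exact isIntegral_algebraMap (R := A) (A := ℂ) (x := ⟨_, A.algebraMap_mem ⟨_, hq⟩⟩)
    rw [Algebra.smul_def]
    refine ⟨(h1 _).mul (ha k).1, ?_⟩
    have : (y k)⁻¹ ^ n * (algebraMap ℚ ℂ q * a) = algebraMap ℚ ℂ q * ((y k)⁻¹ ^ n * a) := by ring
    rw [this]; exact (h1 _).mul (ha k).2

theorem finrank_base (K : Subfield ℂ) (hK : ∀ c ∈ K, ∃ q : ℚ, algebraMap ℚ ℂ q = c) (S : Set ℂ)
    (hfin : Module.Finite K (Submodule.span K S)) :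
    Module.Finite ℚ (Submodule.span ℚ S) ∧
      Module.finrank ℚ (Submodule.span ℚ S) ≤ Module.finrank K (Submodule.span K S) := by
  have hle : ∀ z ∈ Submodule.span ℚ S, z ∈ Submodule.span K S := by
    intro z hz
    refine Submodule.span_induction (fun z hz => Submodule.subset_span hz)
      (Submodule.zero_mem _) (fun a b _ _ ha hb => Submodule.add_mem _ ha hb) ?_ hz
    intro q a _ ha
    have hq : algebraMap ℚ ℂ q ∈ K := by rw [eq_ratCast]; exact SubfieldClass.ratCast_mem _ _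
    rw [Algebra.smul_def]
    exact Submodule.smul_mem _ (⟨_, hq⟩ : K) ha
  have h1 : Module.rank ℚ (Submodule.span ℚ S) ≤ Module.finrank K (Submodule.span K S) := by
    refine rank_le fun s hs => ?_
    have h2 : LinearIndependent K (fun i : s => (⟨((i : Submodule.span ℚ S) : ℂ),
        hle _ (i : Submodule.span ℚ S).2⟩ : Submodule.span K S)) := by
      rw [Fintype.linearIndependent_iff]
      intro c hc
      choose q hq using fun i => hK (c i : ℂ) (c i).2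
      have h3 : ∑ i, q i • (i : Submodule.span ℚ S) = 0 := by
        have h4 := congrArg (fun z : Submodule.span K S => (z : ℂ)) hc
        apply Subtype.ext
        simp only [Submodule.coe_zero] at h4 ⊢
        rw [← h4]
        simp only [AddSubmonoidClass.coe_finsetSum, Submodule.coe_smul]
        refine Finset.sum_congr rfl fun i _ => ?_
        rw [Algebra.smul_def, hq i]
        rfl
      intro i
      have h5 := Fintype.linearIndependent_iff.mp hs q h3 i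
      apply Subtype.ext
      rw [← hq i, h5, map_zero]; rfl
    have := h2.fintype_card_le_finrank
    simpa using this
  exact ⟨Module.rank_lt_aleph0_iff.mp (lt_of_le_of_lt h1 Cardinal.natCast_lt_aleph0),
    Module.finrank_le_of_rank_le h1⟩

theorem Fi_zero {r : ℕ} (y : Fin r → ℂ) : ∀ c ∈ Fi y 0, ∃ q : ℚ, algebraMap ℚ ℂ q = c := by
  intro c hc
  have h1 : c ∈ IntermediateField.adjoin ℚ (y '' {j | (j : ℕ) < 0}) := hc
  have h2 : y '' {j | (j : ℕ) < 0} = ∅ := by simp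
  rw [h2, IntermediateField.adjoin_empty, IntermediateField.mem_bot] at h1
  exact h1

/-- the data provided by Noether normalisation -/
structure Noe {m : ℕ} (r : ℕ) (ξ : Fin m → ℂ) (δ : ℕ) (w : Fin r → Fin m → ℤ) : Prop where
  ind : AlgebraicIndependent ℚ (fun i : Fin r => ∑ j, (w i j : ℂ) * ξ j)
  eqn : ∀ v : Fin m → ℤ, ∃ c : Fin δ → MvPolynomial (Fin r) ℚ,
    (∀ i, (c i).totalDegree ≤ (i : ℕ) + 1) ∧
    (∑ j, (v j : ℂ) * ξ j) ^ δ + ∑ i : Fin δ,
      aeval (fun i : Fin r => ∑ j, (w i j : ℂ) * ξ j) (c i) *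
        (∑ j, (v j : ℂ) * ξ j) ^ (δ - 1 - (i : ℕ)) = 0

/-- LEMMA G with the degree bound -/
theorem lemmaG {m r : ℕ} {ξ : Fin m → ℂ} {δ : ℕ} {w : Fin r → Fin m → ℤ} (N : Noe r ξ δ w)
    (X : ℕ) (A : Submodule ℚ ℂ) (hA : A ≤ polySpan ξ X) :
    let K := Fi (fun i : Fin r => ∑ j, (w i j : ℂ) * ξ j) r
    Module.Finite ℚ A ∧ Module.Finite K (Submodule.span K (A : Set ℂ)) ∧
    Module.finrank ℚ A ≤ (X+1) ^ r * Module.finrank K (Submodule.span K (A : Set ℂ)) ∧
    Module.finrank K (Submodule.span K (A : Set ℂ)) ≤ δ := by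
  intro K
  set y : Fin r → ℂ := fun i : Fin r => ∑ j, (w i j : ℂ) * ξ j with hy
  have hξ : ∀ j, Bdd y 1 (ξ j) := by
    intro j
    obtain ⟨c, hc, h⟩ := N.eqn (Pi.single j 1)
    have e : ∑ i, ((Pi.single j 1 : Fin m → ℤ) i : ℂ) * ξ i = ξ j := by
      rw [Finset.sum_eq_single j]
      · simp
      · intro b _ hb; rw [Pi.single_eq_of_ne hb]; simp
      · simp
    rw [e] at h
    exact bdd_of_eq N.ind (ξ j) c hc h
  have hKy : ∀ c : MvPolynomial (Fin r) ℚ, aeval y c ∈ K := by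
    intro c
    have h1 : aeval y c ∈ IntermediateField.adjoin ℚ (y '' {j | (j : ℕ) < r}) := by
      have h2 : (Set.range y) ⊆ (IntermediateField.adjoin ℚ (y '' {j | (j : ℕ) < r})) := by
        rintro _ ⟨j, rfl⟩
        exact IntermediateField.subset_adjoin _ _ ⟨j, j.2, rfl⟩
      have h3 : aeval y c ∈ Algebra.adjoin ℚ (Set.range y) := by
        rw [Algebra.adjoin_range_eq_range_aeval]; exact ⟨c, rfl⟩
      have h4 : Algebra.adjoin ℚ (Set.range y) ≤
          (IntermediateField.adjoin ℚ (y '' {j | (j : ℕ) < r})).toSubalgebra :=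
        Algebra.adjoin_le h2
      exact h4 h3
    exact h1
  obtain ⟨h1, h2⟩ := finrank_adjoin_le K (δ := δ) ξ (by
    intro v
    obtain ⟨c, hc, h⟩ := N.eqn v
    exact exists_monic (R := K) (A := ℂ) (fun i => ⟨aeval y (c i), hKy (c i)⟩) _ h)
  set M := IntermediateField.adjoin K (Set.range ξ) with hM
  have hle : Submodule.span K (A : Set ℂ) ≤ Subalgebra.toSubmodule M.toSubalgebra := by
    rw [Submodule.span_le]
    intro a ha
    have h3 : polySpan ξ X ≤ (Subalgebra.toSubmodule M.toSubalgebra).restrictScalars ℚ := by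
      refine Submodule.span_le.mpr ?_
      rintro z ⟨Q, _, rfl⟩
      have h4 : aeval ξ Q ∈ Algebra.adjoin ℤ (Set.range ξ) := by
        rw [Algebra.adjoin_range_eq_range_aeval]; exact ⟨Q, rfl⟩
      have h5 : ∀ z ∈ Algebra.adjoin ℤ (Set.range ξ), z ∈ M := by
        intro z hz
        induction hz using Algebra.adjoin_induction with
        | mem x hx => exact IntermediateField.subset_adjoin _ _ hx
        | algebraMap n => rw [eq_intCast]; exact intCast_mem _ _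
        | add a b _ _ ha hb => exact add_mem ha hb
        | mul a b _ _ ha hb => exact mul_mem ha hb
      exact h5 _ h4
    exact h3 (hA ha)
  have hfinM : Module.Finite K (Subalgebra.toSubmodule M.toSubalgebra) := h1
  have hfin : Module.Finite K (Submodule.span K (A : Set ℂ)) :=
    Module.Finite.of_injective (Submodule.inclusion hle) (Submodule.inclusion_injective hle)
  have hρ : Module.finrank K (Submodule.span K (A : Set ℂ)) ≤ δ :=
    (Submodule.finrank_mono hle).trans h2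
  obtain ⟨h5, h6⟩ := chain y N.ind (A : Set ℂ) X (fun s hs => bdd_polySpan hξ X s (hA hs)) hfin r 0
    (by omega)
  obtain ⟨h7, h8⟩ := finrank_base (Fi y 0) (Fi_zero y) (A : Set ℂ) h5
  rw [Submodule.span_eq] at h7 h8
  exact ⟨h7, hfin, h8.trans h6, hρ⟩

theorem noe_of (h : SNoether) {m r : ℕ} {ξ : Fin m → ℂ}
    {F : MvPolynomial (Fin (r+1) × Fin (m+1)) ℤ} (hV : IsVar r ξ F) :
    ∃ w : Fin r → Fin m → ℤ, Noe r ξ (F.degreeOf (0, 0)) w := by
  obtain ⟨_, w, h1, h2⟩ := h m r ξ F hV _ rfl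
  exact ⟨w, h1, h2⟩

/-- Hilbert function bound -/
theorem hilb (h : SNoether) : SHilb := by
  intro m r ξ F hV X
  obtain ⟨w, N⟩ := noe_of h hV
  obtain ⟨_, _, h3, h4⟩ := lemmaG N X (polySpan ξ X) le_rfl
  have h5 := h3.trans (Nat.mul_le_mul_left _ h4)
  calc (Module.finrank ℚ (polySpan ξ X) : ℝ) ≤ (((X+1) ^ r * F.degreeOf (0, 0) : ℕ) : ℝ) := by
        exact_mod_cast h5
    _ = F.degreeOf (0, 0) * ((X : ℝ) + 1) ^ r := by push_cast; ring

theorem polySpan_mono {m : ℕ} (ξ : Fin m → ℂ) {X Y : ℕ} (h : X ≤ Y) :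
    polySpan ξ X ≤ polySpan ξ Y :=
  Submodule.span_mono fun _ ⟨Q, hQ, hz⟩ => ⟨Q, hQ.trans h, hz⟩

theorem polySpan_mul {m : ℕ} (ξ : Fin m → ℂ) (X Y : ℕ) :
    polySpan ξ X * polySpan ξ Y ≤ polySpan ξ (X + Y) := by
  unfold polySpan
  rw [Submodule.span_mul_span, Submodule.span_le]
  rintro _ ⟨_, ⟨Q, hQ, rfl⟩, _, ⟨R, hR, rfl⟩, rfl⟩
  exact Submodule.subset_span ⟨Q * R, (totalDegree_mul _ _).trans (Nat.add_le_add hQ hR),
    by simp⟩

theorem mem_polySpan {m : ℕ} (ξ : Fin m → ℂ) {X : ℕ} (Q : MvPolynomial (Fin m) ℤ)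
    (hQ : Q.totalDegree ≤ X) : aeval ξ Q ∈ polySpan ξ X := Submodule.subset_span ⟨Q, hQ, rfl⟩

/-- polynomials in the `y_i` -/
theorem aeval_y_mem {m r : ℕ} (ξ : Fin m → ℂ) (w : Fin r → Fin m → ℤ)
    (c : MvPolynomial (Fin r) ℚ) (n : ℕ) (hc : c.totalDegree ≤ n) :
    aeval (fun i : Fin r => ∑ j, (w i j : ℂ) * ξ j) c ∈ polySpan ξ n := by
  have hone : ∀ n, (1 : ℂ) ∈ polySpan ξ n := fun n => by
    have := mem_polySpan ξ (X := n) 1 (by simp)
    rwa [map_one] at this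
  refine filt (fun n z => z ∈ polySpan ξ n) ?_ ?_ ?_ ?_ ?_ _ ?_ c n hc
  · intro n; exact Submodule.zero_mem _
  · intro n a b ha hb; exact Submodule.add_mem _ ha hb
  · intro n k a b ha hb; exact polySpan_mul ξ n k (Submodule.mul_mem_mul ha hb)
  · intro n k a hnk ha; exact polySpan_mono ξ hnk ha
  · intro q
    rw [Algebra.algebraMap_eq_smul_one]
    exact Submodule.smul_mem _ _ (hone 0)
  · intro i
    have := mem_polySpan ξ (X := 1) (∑ j, C (w i j) * X j : MvPolynomial (Fin m) ℤ) (by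
      refine totalDegree_finsetSum_le fun j _ => ?_
      refine (totalDegree_mul _ _).trans ?_
      rw [totalDegree_C, totalDegree_X, zero_add])
    simpa using this

theorem mono_indep {r : ℕ} {y : Fin r → ℂ} (hy : AlgebraicIndependent ℚ y) (N : ℕ) :
    LinearIndependent ℚ (fun e : Fin r → Fin (N+1) => ∏ i, y i ^ (e i : ℕ)) := by
  have h1 := (basisMonomials (Fin r) ℚ).linearIndependent.map' (aeval y).toLinearMap
    (LinearMap.ker_eq_bot.mpr hy)
  have h2 := h1.comp (fun e : Fin r → Fin (N+1) => Finsupp.equivFunOnFinite.symm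
    (fun i => (e i : ℕ))) (by
      intro a b hab
      have := Finsupp.equivFunOnFinite.symm.injective hab
      funext i
      exact Fin.ext (congrFun this i))
  have h3 : (fun e : Fin r → Fin (N+1) => ∏ i, y i ^ (e i : ℕ)) =
      (⇑(aeval y).toLinearMap ∘ ⇑(basisMonomials (Fin r) ℚ)) ∘
        fun e => Finsupp.equivFunOnFinite.symm fun i => (e i : ℕ) := by
    funext e
    simp [aeval_monomial, Finsupp.prod_fintype]
  rw [h3]
  exact h2

theorem rk_le {m r : ℕ} {ξ : Fin m → ℂ} (h : trd ξ = r) : r ≤ m := by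
  have h1 : trd ξ ≤ (Set.range ξ).encard := Matroid.eRk_le_encard _ _
  have h2 : (Set.range ξ).encard ≤ m := by
    rw [← Set.image_univ]
    refine (Set.encard_image_le _ _).trans ?_
    simp
  rw [h] at h1
  exact_mod_cast h1.trans h2

theorem growth_lower {m r : ℕ} {ξ : Fin m → ℂ} {δ : ℕ} {w : Fin r → Fin m → ℤ} (N : Noe r ξ δ w)
    (X n Y : ℕ) (hY : r * n ≤ Y) (A : Submodule ℚ ℂ) (hA : A ≤ polySpan ξ X) :
    let K := Fi (fun i : Fin r => ∑ j, (w i j : ℂ) * ξ j) r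
    Module.finrank K (Submodule.span K (A : Set ℂ)) * (n+1) ^ r ≤
      Module.finrank ℚ ↥(A * polySpan ξ Y) := by
  intro K
  set y : Fin r → ℂ := fun i : Fin r => ∑ j, (w i j : ℂ) * ξ j with hy
  obtain ⟨_, hfin, _, _⟩ := lemmaG N X A hA
  have hfin2 : Module.Finite ℚ ↥(A * polySpan ξ Y) :=
    (lemmaG N (X+Y) (A * polySpan ξ Y)
      ((mul_le_mul' hA le_rfl).trans (polySpan_mul ξ X Y))).1
  obtain ⟨b, hbA, hspan, hlin⟩ := exists_linearIndependent K (A : Set ℂ)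
  have hfin3 : Module.Finite K (Submodule.span K b) := by rw [hspan]; exact hfin
  have hbfin : Finite b := by
    have h1 : LinearIndependent K (fun x : b => (⟨(x : ℂ), Submodule.subset_span x.2⟩ :
        Submodule.span K b)) := by
      have h0 : LinearIndependent K ((Submodule.span K b).subtype ∘
        (fun x : b => (⟨(x : ℂ), Submodule.subset_span x.2⟩ : Submodule.span K b))) := hlin
      exact LinearIndependent.of_comp _ h0
    exact h1.finite
  have := Fintype.ofFinite b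
  have hcard : Module.finrank K (Submodule.span K (A : Set ℂ)) = Fintype.card b := by
    rw [← hspan]
    have := finrank_span_eq_card hlin
    rwa [Subtype.range_coe_subtype, Set.ofPred_mem_eq] at this
  have hmon : ∀ e : Fin r → Fin (n+1), (∏ i, y i ^ (e i : ℕ)) ∈ K := by
    intro e
    refine prod_mem fun i _ => pow_mem ?_ _
    have : y i ∈ IntermediateField.adjoin ℚ (y '' {j | (j : ℕ) < r}) :=
      IntermediateField.subset_adjoin _ _ ⟨i, i.2, rfl⟩
    exact this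
  have hmonS : ∀ e : Fin r → Fin (n+1), (∏ i, y i ^ (e i : ℕ)) ∈ polySpan ξ Y := by
    intro e
    have h1 : (∏ i, y i ^ (e i : ℕ)) = aeval y (monomial (Finsupp.equivFunOnFinite.symm
        (fun i => (e i : ℕ))) (1 : ℚ)) := by simp [aeval_monomial, Finsupp.prod_fintype]
    rw [h1]
    refine aeval_y_mem ξ w _ _ ?_
    refine (totalDegree_monomial_le _ _).trans ?_
    rw [Finsupp.sum_fintype _ _ (fun _ => rfl)]
    calc ∑ i, (Finsupp.equivFunOnFinite.symm (fun i => (e i : ℕ))) i ≤ ∑ _i : Fin r, n :=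
          Finset.sum_le_sum fun i _ => Nat.le_of_lt_succ (e i).2
      _ = r * n := by simp
      _ ≤ Y := hY
  have hprod : LinearIndependent ℚ (fun p : b × (Fin r → Fin (n+1)) =>
      ((p.1 : ℂ) * ∏ i, y i ^ (p.2 i : ℕ))) := by
    rw [Fintype.linearIndependent_iff]
    intro g hg
    rw [Fintype.sum_prod_type] at hg
    have hqK : ∀ q : ℚ, algebraMap ℚ ℂ q ∈ K := fun q => by
      rw [eq_ratCast]; exact SubfieldClass.ratCast_mem _ _
    have h1 : ∀ a : b, ∑ e, algebraMap ℚ ℂ (g (a, e)) * ∏ i, y i ^ (e i : ℕ) ∈ K := fun a =>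
      sum_mem fun e _ => mul_mem (hqK _) (hmon e)
    have h2 : ∑ a : b, (⟨_, h1 a⟩ : K) • (a : ℂ) = 0 := by
      rw [← hg]
      refine Finset.sum_congr rfl fun a _ => ?_
      have : (⟨_, h1 a⟩ : K) • (a : ℂ) =
        (∑ e, algebraMap ℚ ℂ (g (a, e)) * ∏ i, y i ^ (e i : ℕ)) * (a : ℂ) := rfl
      rw [this, Finset.sum_mul]
      refine Finset.sum_congr rfl fun e _ => ?_
      rw [Algebra.smul_def]; ring
    have h3 := Fintype.linearIndependent_iff.mp hlin _ h2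
    rintro ⟨a, e⟩
    have h4 : ∑ e, g (a, e) • (∏ i, y i ^ (e i : ℕ)) = 0 := by
      have := congrArg (fun z : K => (z : ℂ)) (h3 a)
      simp only [ZeroMemClass.coe_zero] at this
      rw [← this]
      refine Finset.sum_congr rfl fun e _ => ?_
      rw [Algebra.smul_def]
    exact Fintype.linearIndependent_iff.mp (mono_indep N.ind n) (fun e => g (a, e)) h4 e
  have hmem : ∀ p : b × (Fin r → Fin (n+1)), ((p.1 : ℂ) * ∏ i, y i ^ (p.2 i : ℕ)) ∈
      A * polySpan ξ Y := fun p => Submodule.mul_mem_mul (hbA p.1.2) (hmonS p.2)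
  have hlin2 : LinearIndependent ℚ (fun p : b × (Fin r → Fin (n+1)) =>
      (⟨_, hmem p⟩ : ↥(A * polySpan ξ Y))) := by
    have : (fun p : b × (Fin r → Fin (n+1)) => ((p.1 : ℂ) * ∏ i, y i ^ (p.2 i : ℕ))) =
      (A * polySpan ξ Y).subtype ∘ (fun p : b × (Fin r → Fin (n+1)) =>
      (⟨_, hmem p⟩ : ↥(A * polySpan ξ Y))) := rfl
    rw [this] at hprod
    exact LinearIndependent.of_comp _ hprod
  have := hlin2.fintype_card_le_finrank
  rw [hcard]
  simpa using this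

/-- geometric growth -/
theorem grow (h : SNoether) : SGrow := by
  intro m
  refine ⟨1 / (2 * ((m : ℝ) + 1)) ^ m, by positivity, ?_⟩
  intro r ξ F hV X K hX hK A hA
  obtain ⟨w, N⟩ := noe_of h hV
  have hr : r ≤ m := rk_le hV.dim
  obtain ⟨_, _, h3, _⟩ := lemmaG N X A hA
  have hY : r * (K * X / (m+1)) ≤ K * X := by
    calc r * (K * X / (m+1)) ≤ (m+1) * (K * X / (m+1)) := Nat.mul_le_mul_right _ (by omega)
      _ ≤ K * X := Nat.mul_div_le _ _
  have h4 := growth_lower N X (K * X / (m+1)) (K * X) hY A hA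
  simp only at h3 h4
  set ρ := Module.finrank (Fi (fun i : Fin r => ∑ j, (w i j : ℂ) * ξ j) r)
    (Submodule.span (Fi (fun i : Fin r => ∑ j, (w i j : ℂ) * ξ j) r) (A : Set ℂ)) with hρ
  have h3' : (Module.finrank ℚ A : ℝ) ≤ ((X : ℝ) + 1) ^ r * ρ := by exact_mod_cast h3
  have h4' : (ρ : ℝ) * (((K * X / (m+1) : ℕ) : ℝ) + 1) ^ r ≤
      Module.finrank ℚ ↥(A * polySpan ξ (K * X)) := by exact_mod_cast h4
  have hX' : (1 : ℝ) ≤ X := by exact_mod_cast hX
  have hK' : (1 : ℝ) ≤ K := by exact_mod_cast hK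
  have h5 : (K : ℝ) * X / ((m : ℝ) + 1) ≤ ((K * X / (m+1) : ℕ) : ℝ) + 1 := by
    rw [div_le_iff₀ (by positivity)]
    have := Nat.lt_div_mul_add (a := K * X) (b := m+1) (by omega)
    have h6 : K * X ≤ (K * X / (m+1) + 1) * (m+1) := by
      rw [add_mul, one_mul]; exact this.le
    exact_mod_cast h6
  have h6 : ((K : ℝ) * X / ((m : ℝ) + 1)) ^ r ≤ (((K * X / (m+1) : ℕ) : ℝ) + 1) ^ r :=
    pow_le_pow_left₀ (by positivity) h5 r
  have h7 : ((X : ℝ) + 1) ^ r ≤ (2 * X) ^ r := pow_le_pow_left₀ (by positivity) (by linarith) r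
  have h8 : (2 * ((m : ℝ) + 1)) ^ r ≤ (2 * ((m : ℝ) + 1)) ^ m :=
    pow_le_pow_right₀ (by linarith [(Nat.cast_nonneg m : (0 : ℝ) ≤ m)]) hr
  have hρ0 : (0 : ℝ) ≤ ρ := Nat.cast_nonneg _
  calc 1 / (2 * ((m : ℝ) + 1)) ^ m * (K : ℝ) ^ r * Module.finrank ℚ A
      ≤ 1 / (2 * ((m : ℝ) + 1)) ^ r * (K : ℝ) ^ r * Module.finrank ℚ A := by
        gcongr
    _ ≤ 1 / (2 * ((m : ℝ) + 1)) ^ r * (K : ℝ) ^ r * ((2 * X) ^ r * ρ) := by
        gcongr
        exact h3'.trans (mul_le_mul_of_nonneg_right h7 hρ0)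
    _ = ρ * ((K : ℝ) * X / ((m : ℝ) + 1)) ^ r := by
        rw [mul_pow, mul_pow, div_pow, mul_pow]
        field_simp
    _ ≤ ρ * (((K * X / (m+1) : ℕ) : ℝ) + 1) ^ r := mul_le_mul_of_nonneg_left h6 hρ0
    _ ≤ _ := h4'

end Pool.Agent.Helper91.LR
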