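import Pool.Agent.Helper91.LR.Step

/-!
Filtrations, the chain of fields `ℚ(y_0,…,y_{i-1})`, and the dimension bound.
-/

open MvPolynomial

namespace Pool.Agent.Helper91.LR

theorem filt {σ R L : Type*} [CommRing R] [Field L] [Algebra R L] (P : ℕ → L → Prop)
    (h0 : ∀ n, P n 0) (hadd : ∀ n a b, P n a → P n b → P n (a+b))
    (hmul : ∀ n m a b, P n a → P m b → P (n+m) (a*b)) (hmono : ∀ n m a, n ≤ m → P n a → P m a)
    (hc : ∀ c : R, P 0 (algebraMap R L c)) (x : σ → L) (hx : ∀ i, P 1 (x i))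
    (Q : MvPolynomial σ R) (n : ℕ) (hQ : Q.totalDegree ≤ n) : P n (aeval x Q) := by
  classical
  have hone : P 0 1 := by have := hc 1; rwa [map_one] at this
  have hpow : ∀ i k, P k (x i ^ k) := by
    intro i k
    induction k with
    | zero => rw [pow_zero]; exact hone
    | succ k ih => rw [pow_succ]; exact hmul _ _ _ _ ih (hx i)
  have hprod : ∀ (d : σ →₀ ℕ) (s : Finset σ), P (∑ i ∈ s, d i) (∏ i ∈ s, x i ^ d i) := by
    intro d s
    induction s using Finset.induction_on with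
    | empty => rw [Finset.sum_empty, Finset.prod_empty]; exact hone
    | insert a s ha ih =>
      rw [Finset.sum_insert ha, Finset.prod_insert ha]
      exact hmul _ _ _ _ (hpow a _) ih
  have hsum : ∀ (s : Finset (σ →₀ ℕ)) (f : (σ →₀ ℕ) → L), (∀ d ∈ s, P n (f d)) →
      P n (∑ d ∈ s, f d) := by
    intro s f
    induction s using Finset.induction_on with
    | empty => intro _; rw [Finset.sum_empty]; exact h0 n
    | insert a s ha ih =>
      intro hf
      rw [Finset.sum_insert ha]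
      exact hadd _ _ _ (hf a (Finset.mem_insert_self _ _))
        (ih fun d hd => hf d (Finset.mem_insert_of_mem hd))
  rw [aeval_def, eval₂_eq]
  refine hsum _ _ fun d hd => ?_
  refine hmono (∑ i ∈ d.support, d i) n _ ((le_totalDegree hd).trans hQ) ?_
  have := hmul 0 _ _ _ (hc (Q.coeff d)) (hprod d d.support)
  rwa [zero_add] at this

theorem exists_monic {R A : Type*} [CommRing R] [Nontrivial R] [CommRing A] [Algebra R A] {δ : ℕ}
    (c : Fin δ → R) (x : A)
    (h : x ^ δ + ∑ i : Fin δ, algebraMap R A (c i) * x ^ (δ - 1 - (i : ℕ)) = 0) :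
    ∃ p : Polynomial R, p.Monic ∧ p.natDegree = δ ∧ Polynomial.aeval x p = 0 := by
  have hdeg : (∑ i : Fin δ, Polynomial.C (c i) * Polynomial.X ^ (δ - 1 - (i : ℕ))).degree <
      ((δ : ℕ) : WithBot ℕ) := by
    refine lt_of_le_of_lt (Polynomial.degree_sum_le _ _) ?_
    rw [Finset.sup_lt_iff (by exact WithBot.bot_lt_coe _)]
    intro i _
    refine lt_of_le_of_lt (Polynomial.degree_C_mul_X_pow_le _ _) ?_
    have : δ - 1 - (i : ℕ) < δ := by omega
    exact_mod_cast this
  refine ⟨Polynomial.X ^ δ + ∑ i : Fin δ, Polynomial.C (c i) * Polynomial.X ^ (δ - 1 - (i : ℕ)),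
    Polynomial.monic_X_pow_add hdeg, ?_, ?_⟩
  · apply Polynomial.natDegree_eq_of_degree_eq_some
    rw [Polynomial.degree_add_eq_left_of_degree_lt (by rw [Polynomial.degree_X_pow]; exact hdeg),
      Polynomial.degree_X_pow]
  · rw [map_add, map_pow, Polynomial.aeval_X, map_sum, ← h]
    congr 1
    refine Finset.sum_congr rfl fun i _ => ?_
    rw [map_mul, map_pow, Polynomial.aeval_X, Polynomial.aeval_C]

section chain

variable {L : Type*} [Field L] [CharZero L] {r : ℕ} (y : Fin r → L)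

/-- the field `ℚ(y_0,…,y_{i-1})` -/
def Fi (i : ℕ) : Subfield L := (IntermediateField.adjoin ℚ (y '' {j | (j : ℕ) < i})).toSubfield

/-- the field generated by all `y_j`, `j ≠ k` -/
def Ek (k : Fin r) : Subfield L := (IntermediateField.adjoin ℚ (y '' {j | j ≠ k})).toSubfield

theorem Fi_le_succ (i : ℕ) : Fi y i ≤ Fi y (i+1) := by
  have : IntermediateField.adjoin ℚ (y '' {j | (j : ℕ) < i}) ≤
      IntermediateField.adjoin ℚ (y '' {j | (j : ℕ) < i+1}) :=
    IntermediateField.adjoin.mono _ _ _ (Set.image_mono fun j (hj : (j : ℕ) < i) =>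
      Nat.lt_succ_of_lt hj)
  exact this

theorem Fi_le_Ek (k : Fin r) : Fi y k ≤ Ek y k := by
  have : IntermediateField.adjoin ℚ (y '' {j | (j : ℕ) < k}) ≤
      IntermediateField.adjoin ℚ (y '' {j | j ≠ k}) :=
    IntermediateField.adjoin.mono _ _ _ (Set.image_mono fun j (hj : (j : ℕ) < k) => by
      intro h; rw [h] at hj; exact lt_irrefl _ hj)
  exact this

open IntermediateField.algebraAdjoinAdjoin in
theorem transcendental_Ek (hy : AlgebraicIndependent ℚ y) (k : Fin r) :
    Transcendental (Ek y k) (y k) := by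
  have h1 : Transcendental (Algebra.adjoin ℚ (y '' {j | j ≠ k})) (y k) :=
    hy.transcendental_adjoin (by simp)
  intro h2
  apply h1
  have h3 : IsAlgebraic (IntermediateField.adjoin ℚ (y '' {j | j ≠ k})) (y k) := h2
  exact h3.restrictScalars _

theorem frac_Fi (k : Fin r) : ∀ φ ∈ Fi y (k+1), ∃ p q : Polynomial (Fi y k),
    Polynomial.aeval (y k)⁻¹ q ≠ 0 ∧
      φ * Polynomial.aeval (y k)⁻¹ q = Polynomial.aeval (y k)⁻¹ p := by
  intro φ hφ
  have h1 : φ ∈ IntermediateField.adjoin ℚ (y '' {j | (j : ℕ) < k+1}) := hφ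
  have h2 : (y '' {j | (j : ℕ) < k+1}) = (y '' {j | (j : ℕ) < k}) ∪ {y k} := by
    ext z
    simp only [Set.mem_image, Set.mem_ofPred_eq, Set.mem_union, Set.mem_singleton_iff]
    constructor
    · rintro ⟨j, hj, rfl⟩
      rcases Nat.lt_succ_iff_lt_or_eq.mp hj with h | h
      · exact Or.inl ⟨j, h, rfl⟩
      · right; congr 1; exact Fin.ext h
    · rintro (⟨j, hj, rfl⟩ | rfl)
      · exact ⟨j, Nat.lt_succ_of_lt hj, rfl⟩
      · exact ⟨k, Nat.lt_succ_self _, rfl⟩
  rw [h2, ← IntermediateField.adjoin_adjoin_left] at h1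
  have h3 : φ ∈ IntermediateField.adjoin
    (IntermediateField.adjoin ℚ (y '' {j | (j : ℕ) < k})) {y k} := h1
  rw [← adjoin_inv, IntermediateField.mem_adjoin_simple_iff] at h3
  obtain ⟨p, q, hpq⟩ := h3
  by_cases hq : Polynomial.aeval (y k)⁻¹ q = 0
  · refine ⟨0, 1, by simp, ?_⟩
    rw [hpq, hq]; simp
  · refine ⟨p, q, hq, ?_⟩
    rw [hpq]
    exact div_mul_cancel₀ _ hq

/-- `s` has order at most `X` at infinity, for each of the variables `y_k` -/
def Bdd (X : ℕ) (s : L) : Prop := ∀ k : Fin r, IsIntegral (Algebra.adjoin (Ek y k) {y k}) s ∧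
  IsIntegral (Algebra.adjoin (Ek y k) {(y k)⁻¹}) ((y k)⁻¹ ^ X * s)

theorem chain (hy : AlgebraicIndependent ℚ y) (S : Set L) (X : ℕ) (hS : ∀ s ∈ S, Bdd y X s)
    (hfin : Module.Finite (Fi y r) (Submodule.span (Fi y r) S)) :
    ∀ n i : ℕ, i + n = r → Module.Finite (Fi y i) (Submodule.span (Fi y i) S) ∧
      Module.finrank (Fi y i) (Submodule.span (Fi y i) S) ≤
        (X+1) ^ n * Module.finrank (Fi y r) (Submodule.span (Fi y r) S) := by
  intro n
  induction n with
  | zero =>
    intro i hi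
    have : i = r := by omega
    subst this
    exact ⟨hfin, by simp⟩
  | succ n ih =>
    intro i hi
    obtain ⟨h1, h2⟩ := ih (i+1) (by omega)
    have hir : i < r := by omega
    obtain ⟨h3, h4⟩ := step (Fi_le_succ y i) (Fi_le_Ek y ⟨i, hir⟩)
      (transcendental_Ek y hy ⟨i, hir⟩) (frac_Fi y ⟨i, hir⟩) S X (fun s hs => hS s hs ⟨i, hir⟩) h1
    refine ⟨h3, h4.trans ?_⟩
    calc (X+1) * Module.finrank (Fi y (i+1)) (Submodule.span (Fi y (i+1)) S) ≤
        (X+1) * ((X+1) ^ n * Module.finrank (Fi y r) (Submodule.span (Fi y r) S)) :=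
          Nat.mul_le_mul_left _ h2
      _ = _ := by ring

end chain

end Pool.Agent.Helper91.LR
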