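import Pool.Agent.Helper91.LR.Chain

/-!
The degree of `K(ξ)` over `K`, when every integer combination of the `ξ_j` is a root of a monic
polynomial of degree `δ` over `K`.
-/

open MvPolynomial

namespace Pool.Agent.Helper91.LR

theorem exists_nat_ne {ι : Type*} (s : Finset ι) {m : ℕ} (d : ι → Fin m → ℂ)
    (hd : ∀ i ∈ s, d i ≠ 0) : ∃ t : ℕ, ∀ i ∈ s, ∑ j, d i j * (t : ℂ) ^ (j : ℕ) ≠ 0 := by
  classical
  set D : ι → Polynomial ℂ := fun i => ∑ j : Fin m, Polynomial.C (d i j) * Polynomial.X ^ (j : ℕ)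
    with hD
  have hcoeff : ∀ i (j : Fin m), (D i).coeff j = d i j := by
    intro i j
    rw [hD]
    simp only [Polynomial.finsetSum_coeff, Polynomial.coeff_C_mul, Polynomial.coeff_X_pow]
    rw [Finset.sum_eq_single j]
    · simp
    · intro b _ hb
      rw [if_neg (fun h => hb (Fin.ext h.symm)), mul_zero]
    · simp
  have hne : ∀ i ∈ s, D i ≠ 0 := by
    intro i hi h
    apply hd i hi
    funext j
    rw [← hcoeff i j, h]; simp
  by_contra hcon
  push Not at hcon
  have h1 : (∏ i ∈ s, D i) = 0 := by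
    apply Polynomial.eq_zero_of_infinite_isRoot
    have h2 : Set.range (fun t : ℕ => (t : ℂ)) ⊆ {x | (∏ i ∈ s, D i).IsRoot x} := by
      rintro _ ⟨t, rfl⟩
      obtain ⟨i, hi, h⟩ := hcon t
      show Polynomial.eval (t : ℂ) (∏ i ∈ s, D i) = 0
      rw [Polynomial.eval_prod]
      refine Finset.prod_eq_zero hi ?_
      rw [hD]
      simp only [Polynomial.eval_finsetSum, Polynomial.eval_mul, Polynomial.eval_C,
        Polynomial.eval_pow, Polynomial.eval_X]
      exact h
    exact Set.Infinite.mono h2 (Set.infinite_range_of_injective Nat.cast_injective)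
  rw [Finset.prod_eq_zero_iff] at h1
  obtain ⟨i, hi, h⟩ := h1
  exact hne i hi h

theorem finrank_adjoin_le (K : Subfield ℂ) {m δ : ℕ} (ξ : Fin m → ℂ) 
    (h : ∀ v : Fin m → ℤ, ∃ p : Polynomial K, p.Monic ∧ p.natDegree = δ ∧
      Polynomial.aeval (∑ j, (v j : ℂ) * ξ j) p = 0) :
    Module.Finite K (IntermediateField.adjoin K (Set.range ξ)) ∧
    Module.finrank K (IntermediateField.adjoin K (Set.range ξ)) ≤ δ := by
  classical
  set M := IntermediateField.adjoin K (Set.range ξ) with hM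
  have hint : ∀ x ∈ Set.range ξ, IsIntegral K x := by
    rintro _ ⟨j, rfl⟩
    obtain ⟨p, hp, _, hp2⟩ := h (Pi.single j 1)
    refine ⟨p, hp, ?_⟩
    have e : ∑ i, ((Pi.single j 1 : Fin m → ℤ) i : ℂ) * ξ i = ξ j := by
      rw [Finset.sum_eq_single j]
      · simp
      · intro b _ hb; rw [Pi.single_eq_of_ne hb]; simp
      · simp
    rw [e] at hp2
    exact hp2
  have hfin : FiniteDimensional K M := IntermediateField.finiteDimensional_adjoin hint
  refine ⟨hfin, ?_⟩
  have hgM : ∀ j, ξ j ∈ M := fun j => IntermediateField.subset_adjoin _ _ ⟨j, rfl⟩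
  have hext : ∀ σ τ : M →ₐ[K] ℂ, (∀ j, σ ⟨ξ j, hgM j⟩ = τ ⟨ξ j, hgM j⟩) → σ = τ := by
    intro σ τ hst
    have : ∀ (x : ℂ) (hx : x ∈ M), σ ⟨x, hx⟩ = τ ⟨x, hx⟩ := by
      intro x hx
      induction hx using IntermediateField.adjoin_induction with
      | mem x hx => obtain ⟨j, rfl⟩ := hx; exact hst j
      | algebraMap x =>
        have := (σ.commutes x).trans (τ.commutes x).symm
        exact this
      | add x y hx hy h1 h2 =>
        have e : (⟨x + y, M.add_mem hx hy⟩ : M) = ⟨x, hx⟩ + ⟨y, hy⟩ := rfl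
        rw [e, map_add, map_add, h1, h2]
      | inv x hx h1 =>
        have e : (⟨x⁻¹, M.inv_mem hx⟩ : M) = (⟨x, hx⟩ : M)⁻¹ := rfl
        rw [e, map_inv₀, map_inv₀, h1]
      | mul x y hx hy h1 h2 =>
        have e : (⟨x * y, M.mul_mem hx hy⟩ : M) = ⟨x, hx⟩ * ⟨y, hy⟩ := rfl
        rw [e, map_mul, map_mul, h1, h2]
    exact AlgHom.ext fun x => this x.1 x.2
  have hcard := AlgHom.card K M ℂ
  rw [← hcard]
  obtain ⟨t, ht⟩ := exists_nat_ne (Finset.univ.filter fun p : (M →ₐ[K] ℂ) × (M →ₐ[K] ℂ) => p.1 ≠ p.2)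
    (fun p j => p.1 ⟨ξ j, hgM j⟩ - p.2 ⟨ξ j, hgM j⟩) (by
      intro p hp h0
      rw [Finset.mem_filter] at hp
      apply hp.2
      apply hext
      intro j
      exact sub_eq_zero.mp (congrFun h0 j))
  obtain ⟨p, hp, hp1, hp2⟩ := h (fun j => (t : ℤ) ^ (j : ℕ))
  set x : M := ∑ j : Fin m, (t : M) ^ (j : ℕ) * ⟨ξ j, hgM j⟩ with hx
  have hσx : ∀ σ : M →ₐ[K] ℂ, σ x = ∑ j : Fin m, (t : ℂ) ^ (j : ℕ) * σ ⟨ξ j, hgM j⟩ := by
    intro σ
    rw [hx, map_sum]
    refine Finset.sum_congr rfl fun j _ => ?_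
    rw [map_mul, map_pow, map_natCast]
  have hroot : ∀ σ : M →ₐ[K] ℂ, Polynomial.aeval (σ x) p = 0 := by
    intro σ
    rw [Polynomial.aeval_algHom_apply]
    have h1 : Polynomial.aeval x p = 0 := by
      have h2 : algebraMap M ℂ (Polynomial.aeval x p) = 0 := by
        rw [← Polynomial.aeval_algebraMap_apply]
        have e : algebraMap M ℂ x = ∑ j : Fin m, (((t : ℤ) ^ (j : ℕ) : ℤ) : ℂ) * ξ j := by
          rw [hx, map_sum]
          refine Finset.sum_congr rfl fun j _ => ?_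
          rw [map_mul, map_pow, map_natCast]
          push_cast
          rfl
        rw [e]; exact hp2
      exact (map_eq_zero _).mp h2
    rw [h1, map_zero]
  have hp0 : p.map (algebraMap K ℂ) ≠ 0 := (hp.map _).ne_zero
  have hinj : Function.Injective (fun σ : M →ₐ[K] ℂ =>
      (⟨σ x, by
        rw [Multiset.mem_toFinset, Polynomial.mem_roots hp0, Polynomial.IsRoot.def,
          Polynomial.eval_map, ← Polynomial.aeval_def]
        exact hroot σ⟩ : {z // z ∈ (p.map (algebraMap K ℂ)).roots.toFinset})) := by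
    intro σ τ hst
    by_contra hne
    have h1 : σ x = τ x := congrArg Subtype.val hst
    have h2 := ht (σ, τ) (by simp [hne])
    apply h2
    rw [hσx, hσx] at h1
    rw [← sub_eq_zero.mpr h1, ← Finset.sum_sub_distrib]
    refine Finset.sum_congr rfl fun j _ => ?_
    ring
  calc Fintype.card (M →ₐ[K] ℂ) ≤ Fintype.card {z // z ∈ (p.map (algebraMap K ℂ)).roots.toFinset} :=
        Fintype.card_le_of_injective _ hinj
    _ = (p.map (algebraMap K ℂ)).roots.toFinset.card := Fintype.card_coe _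
    _ ≤ Multiset.card (p.map (algebraMap K ℂ)).roots := Multiset.toFinset_card_le _
    _ ≤ (p.map (algebraMap K ℂ)).natDegree := Polynomial.card_roots' _
    _ ≤ p.natDegree := Polynomial.natDegree_map_le
    _ = δ := hp1

end Pool.Agent.Helper91.LR
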