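import Mathlib

/-!
One step of the Hilbert function bound: adjoining one transcendental element `y`.
-/

open Polynomial

namespace Pool.Agent.Helper91.LR

variable {L : Type*} [Field L]

theorem minpoly_congr {E : Type*} [Field E] [Algebra E L] {K1 K2 : IntermediateField E L}
    (h : K1 = K2) (z : L) :
    (minpoly K1 z).map (algebraMap K1 L) = (minpoly K2 z).map (algebraMap K2 L) := by
  subst h; rfl

theorem mem_range_of_mem_of_mem {E : Type*} [Field E] [Algebra E L] {y a : L}
    (hy : Transcendental E y) (h1 : a ∈ Algebra.adjoin E {y}) (h2 : a ∈ Algebra.adjoin E {y⁻¹}) :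
    ∃ c : E, algebraMap E L c = a := by
  have hy0 : y ≠ 0 := by
    rintro rfl
    exact hy (isAlgebraic_zero)
  rw [Algebra.adjoin_singleton_eq_range_aeval] at h1 h2
  obtain ⟨p, rfl⟩ := h1
  obtain ⟨q, hq⟩ := h2
  have hq' : aeval y⁻¹ q = aeval y p := hq
  let _ : Invertible (y⁻¹) := invertibleOfNonzero (inv_ne_zero hy0)
  have h3 : aeval y (q.reverse) * y⁻¹ ^ q.natDegree = aeval y⁻¹ q := by
    have := Polynomial.eval₂_reverse_mul_pow (algebraMap E L) (y⁻¹) q
    simpa [aeval_def] using this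
  have h4 : aeval y (q.reverse - X ^ q.natDegree * p) = 0 := by
    rw [map_sub, map_mul, map_pow, aeval_X, ← hq', ← h3]
    have : y ^ q.natDegree * (aeval y q.reverse * y⁻¹ ^ q.natDegree) =
        aeval y q.reverse * (y * y⁻¹) ^ q.natDegree := by rw [mul_pow]; ring
    rw [this, mul_inv_cancel₀ hy0, one_pow, mul_one, sub_self]
  have h5 : q.reverse = X ^ q.natDegree * p := by
    have := (transcendental_iff.mp hy) _ h4
    exact sub_eq_zero.mp this
  by_cases hp : p = 0
  · exact ⟨0, by simp [hp]⟩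
  have h6 : q.natDegree + p.natDegree ≤ q.natDegree := by
    calc q.natDegree + p.natDegree = (X ^ q.natDegree * p).natDegree := by
          rw [natDegree_mul (pow_ne_zero _ X_ne_zero) hp, natDegree_X_pow]
      _ = q.reverse.natDegree := by rw [h5]
      _ ≤ q.natDegree := Polynomial.reverse_natDegree_le q
  have h7 : p.natDegree = 0 := by omega
  refine ⟨p.coeff 0, ?_⟩
  rw [Polynomial.eq_C_of_natDegree_eq_zero h7]
  simp

theorem isIntegrallyClosed_adjoin {E : Type*} [Field E] [Algebra E L] {y : L}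
    (hy : Transcendental E y) : IsIntegrallyClosed (Algebra.adjoin E {y}) := by
  have e : E[X] ≃ₐ[E] Algebra.adjoin E {y} := by
    rw [Algebra.adjoin_singleton_eq_range_aeval]
    exact AlgEquiv.ofInjective (aeval y) (transcendental_iff_injective.mp hy)
  exact IsIntegrallyClosed.of_equiv e.toRingEquiv

open IntermediateField.algebraAdjoinAdjoin in
theorem minpoly_coeff_mem {E : Type*} [Field E] [Algebra E L] {y z : L}
    (hy : Transcendental E y) (h1 : IsIntegral (Algebra.adjoin E {y}) z) (i : ℕ) :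
    ((minpoly (IntermediateField.adjoin E {y}) z).map
      (algebraMap (IntermediateField.adjoin E {y}) L)).coeff i ∈ Algebra.adjoin E {y} := by
  have := isIntegrallyClosed_adjoin hy
  rw [minpoly.isIntegrallyClosed_eq_field_fractions' (R := Algebra.adjoin E {y})
    (IntermediateField.adjoin E {y}) h1]
  rw [Polynomial.coeff_map, Polynomial.coeff_map]
  exact SetLike.coe_mem _

theorem adjoin_inv {E : Type*} [Field E] [Algebra E L] (y : L) :
    IntermediateField.adjoin E {y⁻¹} = IntermediateField.adjoin E {y} := by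
  apply le_antisymm
  · rw [IntermediateField.adjoin_le_iff, Set.singleton_subset_iff]
    exact inv_mem (IntermediateField.mem_adjoin_simple_self E y)
  · rw [IntermediateField.adjoin_le_iff, Set.singleton_subset_iff]
    have := inv_mem (IntermediateField.mem_adjoin_simple_self E (y⁻¹))
    rwa [inv_inv] at this

theorem transcendental_inv {E : Type*} [Field E] [Algebra E L] {y : L}
    (hy : Transcendental E y) : Transcendental E y⁻¹ := by
  intro h
  apply hy
  have := h.inv
  rwa [inv_inv] at this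

theorem eq_zero_of_integral {E : Type*} [Field E] [Algebra E L] {y z : L}
    (hy : Transcendental E y) (h1 : IsIntegral (Algebra.adjoin E {y}) z)
    (h2 : IsIntegral (Algebra.adjoin E {y⁻¹}) (y * z)) : z = 0 := by
  have hy0 : y ≠ 0 := by
    rintro rfl
    exact hy (isAlgebraic_zero)
  have hyi := transcendental_inv hy
  have h3 : IsIntegral (Algebra.adjoin E {y⁻¹}) z := by
    have h4 : IsIntegral (Algebra.adjoin E {y⁻¹}) (y⁻¹) := by
      have := isIntegral_algebraMap (R := Algebra.adjoin E {y⁻¹}) (A := L)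
        (x := ⟨y⁻¹, Algebra.self_mem_adjoin_singleton E y⁻¹⟩)
      exact this
    have := h4.mul h2
    rwa [← mul_assoc, inv_mul_cancel₀ hy0, one_mul] at this
  set P := (minpoly (IntermediateField.adjoin E {y}) z).map
      (algebraMap (IntermediateField.adjoin E {y}) L) with hP
  have hc1 : ∀ i, P.coeff i ∈ Algebra.adjoin E {y} := minpoly_coeff_mem hy h1
  have hc2 : ∀ i, P.coeff i ∈ Algebra.adjoin E {y⁻¹} := by
    intro i
    have := minpoly_coeff_mem hyi h3 i
    rwa [minpoly_congr (adjoin_inv y) z] at this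
  have hc : ∀ i, ∃ c : E, algebraMap E L c = P.coeff i := fun i =>
    mem_range_of_mem_of_mem hy (hc1 i) (hc2 i)
  have hzK : IsIntegral (IntermediateField.adjoin E {y}) z := by
    have : Algebra.adjoin E {y} ≤ (IntermediateField.adjoin E {y}).toSubalgebra :=
      IntermediateField.algebra_adjoin_le_adjoin E {y}
    obtain ⟨p, hp, hpz⟩ := h1
    refine ⟨p.map (Subalgebra.inclusion this).toRingHom, hp.map _, ?_⟩
    rw [Polynomial.eval₂_map]
    exact hpz
  have hPm : P.Monic := (minpoly.monic hzK).map _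
  have hPz : P.eval z = 0 := by
    rw [hP, Polynomial.eval_map, ← aeval_def]
    exact minpoly.aeval _ _
  have hzE : IsIntegral E z := by
    choose c hc using hc
    have hl : P ∈ Polynomial.lifts (algebraMap E L) := by
      rw [Polynomial.lifts_iff_coeff_lifts]
      intro i
      exact ⟨c i, hc i⟩
    obtain ⟨p, hp1, hp2, hp3⟩ := Polynomial.lifts_and_natDegree_eq_and_monic hl hPm
    exact ⟨p, hp3, by rw [← Polynomial.eval_map, hp1, hPz]⟩
  by_contra hz
  have h5 : IsIntegral E z⁻¹ := IsIntegral.inv hzE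
  have h6 : IsIntegral (Algebra.adjoin E {y⁻¹}) z⁻¹ := h5.tower_top
  have h7 : IsIntegral (Algebra.adjoin E {y⁻¹}) y := by
    have := h2.mul h6
    rwa [mul_assoc, mul_inv_cancel₀ hz, mul_one] at this
  -- the minimal polynomial of `y` over `E(y⁻¹)` is `X - y`
  have h8 : y ∈ Algebra.adjoin E {y⁻¹} := by
    have h9 := minpoly_coeff_mem hyi h7 0
    have hyK : y ∈ IntermediateField.adjoin E {y⁻¹} := by
      rw [adjoin_inv]; exact IntermediateField.mem_adjoin_simple_self E y
    have h10 : minpoly (IntermediateField.adjoin E {y⁻¹}) y = X - C ⟨y, hyK⟩ :=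
      minpoly.eq_X_sub_C _ (⟨y, hyK⟩ : IntermediateField.adjoin E {y⁻¹})
    rw [h10] at h9
    simp only [Polynomial.map_sub, map_X, map_C, coeff_sub, coeff_X_zero, coeff_C_zero,
      zero_sub] at h9
    have := neg_mem h9
    rw [neg_neg] at this
    exact this
  obtain ⟨c, hc⟩ := mem_range_of_mem_of_mem hy (Algebra.self_mem_adjoin_singleton E y) h8
  apply hy
  rw [← hc]
  exact isAlgebraic_algebraMap c

/-- the filtration: elements of `U` integral over `E[y]`, with `y^(1-k) z` integral over `E[1/y]` -/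
def Nk (K K1 E : Subfield L) (hK1 : K ≤ K1) (hKE : K ≤ E) (U : Submodule K1 L) (y : L) (k : ℕ) :
    Submodule K L where
  carrier := {z | z ∈ U ∧ IsIntegral (Algebra.adjoin E {y}) z ∧
    IsIntegral (Algebra.adjoin E {y⁻¹}) (y * y⁻¹ ^ k * z)}
  add_mem' := by
    rintro a b ⟨ha1, ha2, ha3⟩ ⟨hb1, hb2, hb3⟩
    refine ⟨U.add_mem ha1 hb1, ha2.add hb2, ?_⟩
    rw [mul_add]; exact ha3.add hb3
  zero_mem' := ⟨U.zero_mem, isIntegral_zero, by rw [mul_zero]; exact isIntegral_zero⟩
  smul_mem' := by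
    rintro ⟨c, hc⟩ z ⟨h1, h2, h3⟩
    have hcE : ∀ (A : Subalgebra E L), IsIntegral A c := fun A => by
      have := isIntegral_algebraMap (R := A) (A := L) (x := algebraMap E A ⟨c, hKE hc⟩)
      exact this
    have e : (⟨c, hc⟩ : K) • z = c * z := rfl
    refine ⟨?_, ?_, ?_⟩
    · have := U.smul_mem (⟨c, hK1 hc⟩ : K1) h1
      exact this
    · rw [e]; exact (hcE _).mul h2
    · rw [e]
      have : y * y⁻¹ ^ k * (c * z) = c * (y * y⁻¹ ^ k * z) := by ring
      rw [this]; exact (hcE _).mul h3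

theorem mem_Nk {K K1 E : Subfield L} {hK1 : K ≤ K1} {hKE : K ≤ E} {U : Submodule K1 L} {y : L}
    {k : ℕ} {z : L} : z ∈ Nk K K1 E hK1 hKE U y k ↔ z ∈ U ∧ IsIntegral (Algebra.adjoin E {y}) z ∧
    IsIntegral (Algebra.adjoin E {y⁻¹}) (y * y⁻¹ ^ k * z) := Iff.rfl

/-- independence over polynomials in `1/y` of elements independent in `N_{k+1}/N_k` -/
theorem poly_indep {K K1 E : Subfield L} (hK1 : K ≤ K1) (hKE : K ≤ E) (U : Submodule K1 L) {y : L}
    (hy0 : y ≠ 0) (k : ℕ) {ι : Type*} [Fintype ι] (f : ι → L)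
    (hf : ∀ i, f i ∈ Nk K K1 E hK1 hKE U y (k+1))
    (hind : ∀ c : ι → K, ∑ i, c i • f i ∈ Nk K K1 E hK1 hKE U y k → ∀ i, c i = 0) :
    ∀ (n : ℕ) (g : ι → K[X]), (∀ i, (g i).natDegree ≤ n) → ∑ i, aeval y⁻¹ (g i) * f i = 0 →
      ∀ i, g i = 0 := by
  intro n
  induction n with
  | zero =>
    intro g hg hs i
    have h1 : ∀ i, g i = C ((g i).coeff 0) := fun i =>
      Polynomial.eq_C_of_natDegree_eq_zero (Nat.le_zero.mp (hg i))
    have h2 : ∑ i, (g i).coeff 0 • f i = 0 := by
      rw [← hs]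
      refine Finset.sum_congr rfl fun i _ => ?_
      rw [h1 i]
      simp [Algebra.smul_def]
    have h3 := hind (fun i => (g i).coeff 0) (by rw [h2]; exact Submodule.zero_mem _) i
    rw [h1 i, h3, C_0]
  | succ n ih =>
    intro g hg hs
    have h1 : ∀ i, aeval y⁻¹ (g i) = y⁻¹ * aeval y⁻¹ (divX (g i)) +
        algebraMap K L ((g i).coeff 0) := by
      intro i
      conv_lhs => rw [← divX_mul_X_add (g i)]
      rw [map_add, map_mul, aeval_X, aeval_C, mul_comm]
    have h2 : ∑ i, (g i).coeff 0 • f i = - (y⁻¹ * ∑ i, aeval y⁻¹ (divX (g i)) * f i) := by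
      rw [eq_neg_iff_add_eq_zero, ← hs, Finset.mul_sum, ← Finset.sum_add_distrib]
      refine Finset.sum_congr rfl fun i _ => ?_
      rw [h1 i, Algebra.smul_def]; ring
    have h3 : ∀ i, (g i).coeff 0 = 0 := by
      apply hind
      rw [mem_Nk]
      have hmem : ∑ i, (g i).coeff 0 • f i ∈ Nk K K1 E hK1 hKE U y (k+1) :=
        Submodule.sum_mem _ fun i _ => Submodule.smul_mem _ _ (hf i)
      refine ⟨hmem.1, hmem.2.1, ?_⟩
      rw [h2]
      have e : y * y⁻¹ ^ k * -(y⁻¹ * ∑ i, aeval y⁻¹ (divX (g i)) * f i) =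
          - ∑ i, aeval y⁻¹ (divX (g i)) * (y * y⁻¹ ^ (k+1) * f i) := by
        rw [mul_neg, Finset.mul_sum, Finset.mul_sum]
        congr 1
        refine Finset.sum_congr rfl fun i _ => ?_
        ring
      rw [e]
      refine IsIntegral.neg (IsIntegral.sum _ fun i _ => IsIntegral.mul ?_ (hf i).2.2)
      have h4 : aeval y⁻¹ (divX (g i)) ∈ Algebra.adjoin E {y⁻¹} := by
        have h5 : aeval y⁻¹ (divX (g i)) =
            aeval y⁻¹ ((divX (g i)).map (Subfield.inclusion hKE)) := by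
          rw [aeval_def, aeval_def, Polynomial.eval₂_map]; rfl
        rw [h5]
        exact Polynomial.aeval_mem_adjoin_singleton _ _
      exact isIntegral_algebraMap (R := Algebra.adjoin E {y⁻¹}) (A := L) (x := ⟨_, h4⟩)
    have h4 : ∑ i, aeval y⁻¹ (divX (g i)) * f i = 0 := by
      have h5 : ∑ i, (g i).coeff 0 • f i = 0 := by simp [h3]
      rw [h5] at h2
      have h6 := neg_eq_zero.mp h2.symm
      exact (mul_eq_zero.mp h6).resolve_left (inv_ne_zero hy0)
    have h5 := ih (fun i => divX (g i)) (fun i => by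
      rw [natDegree_divX_eq_natDegree_tsub_one]; have := hg i; omega) h4
    intro i
    rw [← divX_mul_X_add (g i), h5 i, h3 i]; simp

theorem field_indep {K K1 E : Subfield L} (hK1 : K ≤ K1) (hKE : K ≤ E) (U : Submodule K1 L) {y : L}
    (hy0 : y ≠ 0) (k : ℕ)
    (hfrac : ∀ φ ∈ K1, ∃ p q : K[X], aeval y⁻¹ q ≠ 0 ∧ φ * aeval y⁻¹ q = aeval y⁻¹ p)
    {ι : Type*} [Fintype ι] (f : ι → L)
    (hf : ∀ i, f i ∈ Nk K K1 E hK1 hKE U y (k+1))
    (hind : ∀ c : ι → K, ∑ i, c i • f i ∈ Nk K K1 E hK1 hKE U y k → ∀ i, c i = 0) :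
    LinearIndependent K1 f := by
  classical
  rw [Fintype.linearIndependent_iff]
  intro φ hφ
  choose p q hq hpq using fun i => hfrac (φ i : L) (φ i).2
  have h1 : ∑ i, aeval y⁻¹ (p i * ∏ j ∈ Finset.univ.erase i, q j) * f i = 0 := by
    have h2 : ∀ i, aeval y⁻¹ (p i * ∏ j ∈ Finset.univ.erase i, q j) * f i =
        (∏ j, aeval y⁻¹ (q j)) * (φ i • f i) := by
      intro i
      rw [map_mul, ← hpq i, map_prod, ← Finset.mul_prod_erase Finset.univ _ (Finset.mem_univ i)]
      have : φ i • f i = (φ i : L) * f i := rfl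
      rw [this]; ring
    rw [Finset.sum_congr rfl fun i _ => h2 i, ← Finset.mul_sum, hφ, mul_zero]
  obtain ⟨n, hn⟩ : ∃ n, ∀ i, (p i * ∏ j ∈ Finset.univ.erase i, q j).natDegree ≤ n :=
    ⟨Finset.univ.sup fun i => (p i * ∏ j ∈ Finset.univ.erase i, q j).natDegree, fun i =>
      Finset.le_sup (f := fun i => (p i * ∏ j ∈ Finset.univ.erase i, q j).natDegree)
        (Finset.mem_univ i)⟩
  have h3 := poly_indep hK1 hKE U hy0 k f hf hind n _ hn h1
  intro i
  have h4 : p i = 0 := by
    rcases mul_eq_zero.mp (h3 i) with h | h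
    · exact h
    · exfalso
      rw [Finset.prod_eq_zero_iff] at h
      obtain ⟨j, _, hj⟩ := h
      exact hq j (by rw [hj, map_zero])
  have h5 := hpq i
  rw [h4, map_zero] at h5
  have h6 := (mul_eq_zero.mp h5).resolve_right (hq i)
  exact Subtype.ext h6

theorem rank_quot_le {K K1 E : Subfield L} (hK1 : K ≤ K1) (hKE : K ≤ E) (U : Submodule K1 L)
    [Module.Finite K1 U] {y : L} (hy0 : y ≠ 0) (k : ℕ)
    (hfrac : ∀ φ ∈ K1, ∃ p q : K[X], aeval y⁻¹ q ≠ 0 ∧ φ * aeval y⁻¹ q = aeval y⁻¹ p) :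
    Module.rank K (Nk K K1 E hK1 hKE U y (k+1) ⧸
      (Nk K K1 E hK1 hKE U y k).submoduleOf (Nk K K1 E hK1 hKE U y (k+1))) ≤
      Module.finrank K1 U := by
  obtain ⟨P, hP⟩ : ∃ P, P = (Nk K K1 E hK1 hKE U y k).submoduleOf (Nk K K1 E hK1 hKE U y (k+1)) :=
    ⟨_, rfl⟩
  rw [← hP]
  refine rank_le fun s hs => ?_
  choose g hg using fun i : s => Submodule.Quotient.mk_surjective P (i : _ ⧸ P)
  have h1 : LinearIndependent K1 (fun i : s => ((g i : Nk K K1 E hK1 hKE U y (k+1)) : L)) := by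
    refine field_indep hK1 hKE U hy0 k hfrac _ (fun i => (g i).2) ?_
    intro c hc
    have h2 : ∑ i, c i • g i ∈ P := by
      have : ∑ i, c i • g i ∈ (Nk K K1 E hK1 hKE U y k).submoduleOf
          (Nk K K1 E hK1 hKE U y (k+1)) := by
        change ((∑ i, c i • g i : Nk K K1 E hK1 hKE U y (k+1)) : L) ∈ Nk K K1 E hK1 hKE U y k
        simpa using hc
      rwa [← hP] at this
    have h3 : ∑ i, c i • (i : _ ⧸ P) = 0 := by
      have : ∑ i, c i • (i : _ ⧸ P) = P.mkQ (∑ i, c i • g i) := by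
        rw [map_sum]
        refine Finset.sum_congr rfl fun i _ => ?_
        rw [map_smul]
        congr 1
        exact (hg i).symm
      rw [this]
      exact (Submodule.Quotient.mk_eq_zero P).mpr h2
    exact Fintype.linearIndependent_iff.mp hs c h3
  have h2 : LinearIndependent K1 (fun i : s => (⟨(g i : L), (g i).2.1⟩ : U)) := by
    have : (fun i : s => ((g i : Nk K K1 E hK1 hKE U y (k+1)) : L)) =
      U.subtype ∘ (fun i : s => (⟨(g i : L), (g i).2.1⟩ : U)) := rfl
    rw [this] at h1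
    exact LinearIndependent.of_comp _ h1
  have := h2.fintype_card_le_finrank
  simpa using this

theorem rank_Nk_le {K K1 E : Subfield L} (hK1 : K ≤ K1) (hKE : K ≤ E) (U : Submodule K1 L)
    [Module.Finite K1 U] {y : L} (hy : Transcendental E y)
    (hfrac : ∀ φ ∈ K1, ∃ p q : K[X], aeval y⁻¹ q ≠ 0 ∧ φ * aeval y⁻¹ q = aeval y⁻¹ p) (k : ℕ) :
    Module.rank K (Nk K K1 E hK1 hKE U y k) ≤ ((k * Module.finrank K1 U : ℕ) : Cardinal) := by
  have hy0 : y ≠ 0 := by
    rintro rfl
    exact hy (isAlgebraic_zero)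
  induction k with
  | zero =>
    have h0 : Nk K K1 E hK1 hKE U y 0 = ⊥ := by
      rw [eq_bot_iff]
      rintro z ⟨_, h2, h3⟩
      rw [pow_zero, mul_one] at h3
      exact eq_zero_of_integral hy h2 h3
    rw [h0]; simp
  | succ k ih =>
    have h1 := Submodule.rank_quotient_add_rank
      ((Nk K K1 E hK1 hKE U y k).submoduleOf (Nk K K1 E hK1 hKE U y (k+1)))
    have h2 : Module.rank K ((Nk K K1 E hK1 hKE U y k).submoduleOf (Nk K K1 E hK1 hKE U y (k+1))) ≤
        Module.rank K (Nk K K1 E hK1 hKE U y k) := by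
      let φ : ((Nk K K1 E hK1 hKE U y k).submoduleOf (Nk K K1 E hK1 hKE U y (k+1))) →ₗ[K]
          (Nk K K1 E hK1 hKE U y k) :=
        { toFun := fun z => ⟨z.1.1, z.2⟩
          map_add' := fun _ _ => rfl
          map_smul' := fun _ _ => rfl }
      refine LinearMap.rank_le_of_injective φ ?_
      intro a b hab
      have : a.1.1 = b.1.1 :=
        congrArg (fun z : Nk K K1 E hK1 hKE U y k => (z : L)) hab
      exact Subtype.ext (Subtype.ext this)
    rw [← h1]
    calc _ ≤ ((Module.finrank K1 U : ℕ) : Cardinal) + ((k * Module.finrank K1 U : ℕ) : Cardinal) :=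
          add_le_add (rank_quot_le hK1 hKE U hy0 k hfrac) (h2.trans ih)
      _ = _ := by rw [← Nat.cast_add]; congr 1; ring

/-- one step -/
theorem step {K K1 E : Subfield L} (hK1 : K ≤ K1) (hKE : K ≤ E) {y : L} (hy : Transcendental E y)
    (hfrac : ∀ φ ∈ K1, ∃ p q : K[X], aeval y⁻¹ q ≠ 0 ∧ φ * aeval y⁻¹ q = aeval y⁻¹ p)
    (S : Set L) (X : ℕ)
    (hS : ∀ s ∈ S, IsIntegral (Algebra.adjoin E {y}) s ∧
      IsIntegral (Algebra.adjoin E {y⁻¹}) (y⁻¹ ^ X * s))
    (hfin : Module.Finite K1 (Submodule.span K1 S)) :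
    Module.Finite K (Submodule.span K S) ∧
      Module.finrank K (Submodule.span K S) ≤ (X + 1) * Module.finrank K1 (Submodule.span K1 S) := by
  have hy0 : y ≠ 0 := by
    rintro rfl
    exact hy (isAlgebraic_zero)
  have h1 : Submodule.span K S ≤ Nk K K1 E hK1 hKE (Submodule.span K1 S) y (X+1) := by
    rw [Submodule.span_le]
    intro s hs
    refine ⟨Submodule.subset_span hs, (hS s hs).1, ?_⟩
    have : y * y⁻¹ ^ (X+1) * s = y⁻¹ ^ X * s := by
      rw [pow_succ']
      have : y * (y⁻¹ * y⁻¹ ^ X) * s = (y * y⁻¹) * (y⁻¹ ^ X * s) := by ring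
      rw [this, mul_inv_cancel₀ hy0, one_mul]
    rw [this]; exact (hS s hs).2
  have h2 := rank_Nk_le hK1 hKE (Submodule.span K1 S) hy hfrac (X+1)
  have h3 : Module.rank K (Submodule.span K S) ≤
      (((X+1) * Module.finrank K1 (Submodule.span K1 S) : ℕ) : Cardinal) :=
    (Submodule.rank_mono h1).trans h2
  have h4 : Module.rank K (Submodule.span K S) < Cardinal.aleph0 :=
    lt_of_le_of_lt h3 Cardinal.natCast_lt_aleph0
  refine ⟨Module.rank_lt_aleph0_iff.mp h4, ?_⟩
  exact Module.finrank_le_of_rank_le h3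

end Pool.Agent.Helper91.LR
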